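import Pool.Agent.Helper797F.Guess

/-!
Counting with the guessing lemma: the induction on alephs below `ℵ_ω₁`, and the number of
almost disjoint functions and of subsets of a set of size `ℵ₁`.
-/

namespace Pool.Agent.Helper797F

open Cardinal Set

universe u

variable {Y : Type u} {Small : Set Y → Prop} {R : Set (Set Y)}

lemma guess_aleph (H : Dense Small R) (hY : #Y = ℵ₁) (μ : Cardinal.{u}) (hμ : ℵ₀ ≤ μ)
    (hR : #R ≤ μ) : ∀ o : Ordinal.{u}, o < Ordinal.omega 1 → ℵ_ o ≤ μ →
      ∀ K : Type u, #K ≤ ℵ_ o → Guess Small K μ := by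
  classical
  have hmul : ∀ ν : Cardinal.{u}, ν ≤ μ → ν * μ ≤ μ := fun ν hν =>
    (mul_le_mul' hν le_rfl).trans (Cardinal.mul_eq_self hμ).le
  have hone : ∀ K : Type u, #K ≤ ℵ₁ → Guess Small K μ := fun K hK =>
    (guess_aleph_one H hY K hK).mono ((mul_le_mul' hR hμ).trans (Cardinal.mul_eq_self hμ).le)
  intro o
  induction o using Ordinal.limitRecOn with
  | zero =>
    intro _ _ K hK
    have : Countable K := by
      rw [Cardinal.aleph_zero] at hK
      exact Cardinal.mk_le_aleph0_iff.1 hK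
    exact (guess_countable H K).mono hμ
  | add_one o ih =>
    intro ho hoμ K hK
    by_cases h0 : o = 0
    · subst h0
      rw [zero_add] at hK
      exact hone K hK
    have ho1 : (1 : Ordinal.{u}) ≤ o := Ordinal.one_le_iff_ne_zero.2 h0
    have hlt : o < o + 1 := Order.lt_add_one_iff.2 le_rfl
    have hoμ' : ℵ_ o ≤ μ := (Cardinal.aleph_le_aleph.2 hlt.le).trans hoμ
    by_cases hKo : #K ≤ ℵ_ o
    · exact ih (hlt.trans ho) hoμ' K hKo
    · have hinf : ℵ₀ ≤ ℵ_ o := Cardinal.aleph0_le_aleph o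
      obtain ⟨r, wo, hr⟩ := Cardinal.exists_ord_eq K
      have hseg : ∀ k : K, #{k' | r k' k} ≤ ℵ_ o := by
        intro k
        have h1 : (Ordinal.typein r k).card < #K := Cardinal.card_typein_lt k hr
        have h2 : (Ordinal.typein r k).card = #{k' // r k' k} := by
          rw [Ordinal.card_typein]
        rw [h2] at h1
        have h3 := lt_of_lt_of_le h1 hK
        rw [← Cardinal.succ_aleph, Order.lt_succ_iff] at h3
        exact h3
      have hbound : ∀ h : Y → K, ∃ k, ∀ y, r (h y) k := by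
        intro h
        by_contra hcon
        push Not at hcon
        apply hKo
        have hun : (Set.univ : Set K) ⊆ ⋃ y : Y, ({k | r k (h y)} ∪ {h y}) := by
          intro k _
          obtain ⟨y, hy⟩ := hcon k
          refine mem_iUnion.2 ⟨y, ?_⟩
          rcases trichotomous_of r (h y) k with h3 | h3 | h3
          · exact absurd h3 hy
          · exact Or.inr h3.symm
          · exact Or.inl h3
        have h1 : #K ≤ #(⋃ y : Y, ({k | r k (h y)} ∪ {h y}) : Set K) := by
          rw [← Cardinal.mk_univ]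
          exact Cardinal.mk_le_mk_of_subset hun
        refine h1.trans ((Cardinal.mk_iUnion_le _).trans ?_)
        have h2 : (⨆ y : Y, #(({k | r k (h y)} ∪ {h y} : Set K))) ≤ ℵ_ o := by
          apply ciSup_le'
          intro y
          refine (Cardinal.mk_union_le _ _).trans ?_
          rw [Cardinal.mk_singleton]
          exact (add_le_add (hseg (h y)) (Cardinal.one_lt_aleph0.le.trans hinf)).trans
            (Cardinal.add_eq_self hinf).le
        have h3 : #Y ≤ ℵ_ o := by
          rw [hY]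
          exact Cardinal.aleph_le_aleph.2 ho1
        exact (mul_le_mul' h3 h2).trans (Cardinal.mul_eq_self hinf).le
      have hc := guess_cover H (κ := μ) (Set.range (fun k : K => {k' | r k' k})) (by
        intro h
        obtain ⟨k, hk⟩ := hbound h
        exact ⟨fun _ => {k' | r k' k}, fun _ => ⟨k, rfl⟩, fun y => ⟨0, hk y⟩⟩) (by
        rintro _ ⟨k, rfl⟩
        exact ih (hlt.trans ho) hoμ' _ (hseg k))
      exact hc.mono (hmul _ (Cardinal.mk_range_le.trans (hK.trans hoμ)))
  | limit o hlim ih =>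
    intro ho hoμ K hK
    have hcount : (Set.Iio o).Countable := by
      rw [← Cardinal.ord_aleph, Cardinal.lt_ord, ← Cardinal.succ_aleph0, Order.lt_succ_iff] at ho
      rw [← Set.countable_coe_iff, ← Cardinal.mk_le_aleph0_iff, Cardinal.mk_Iio_ordinal]
      rw [← Cardinal.lift_aleph0.{u + 1, u}]
      exact Cardinal.lift_le.2 ho
    have hne : (Set.Iio o).Nonempty := ⟨0, hlim.bot_lt⟩
    obtain ⟨s, hs⟩ := hcount.exists_eq_range hne
    have hso : ∀ n, s n < o := by
      intro n
      have : s n ∈ Set.Iio o := by rw [hs]; exact ⟨n, rfl⟩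
      exact this
    let T : ULift.{u} ℕ → Type u := fun n => (ℵ_ (s n.down)).out
    have hT : ∀ n, #(T n) = ℵ_ (s n.down) := fun n => Cardinal.mk_out _
    have hKT : #K ≤ #(Σ n : ULift.{u} ℕ, T n) := by
      rw [Cardinal.mk_sigma]
      refine hK.trans ?_
      rw [Cardinal.aleph_limit hlim]
      apply ciSup_le'
      rintro ⟨a, ha⟩
      rw [hs] at ha
      obtain ⟨n, rfl⟩ := ha
      have := Cardinal.le_sum (fun n : ULift.{u} ℕ => #(T n)) ⟨n⟩
      rw [hT] at this
      exact this
    obtain ⟨e⟩ := hKT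
    have hc := guess_cover H (κ := μ) (Set.range (fun n : ULift.{u} ℕ => {k : K | (e k).1 = n})) (by
      intro h
      exact ⟨fun n => {k | (e k).1 = ⟨n⟩}, fun n => ⟨⟨n⟩, rfl⟩,
        fun y => ⟨(e (h y)).1.down, rfl⟩⟩) (by
      rintro _ ⟨n, rfl⟩
      refine ih (s n.down) (hso _) ((hso _).trans ho)
        ((Cardinal.aleph_le_aleph.2 (hso _).le).trans hoμ) _ ?_
      rw [← hT n]
      refine Cardinal.mk_le_of_injective (f := fun k : {k : K | (e k).1 = n} =>
        (cast (congrArg T k.2) (e k.1).2 : T n)) ?_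
      rintro ⟨k, hk⟩ ⟨k', hk'⟩ hkk
      apply Subtype.ext
      apply e.injective
      simp only at hkk
      have hk1 : (e k).1 = n := hk
      have hk1' : (e k').1 = n := hk'
      apply Sigma.ext
      · rw [hk1, hk1']
      · have h1 : HEq (cast (congrArg T hk) (e k).2) (e k).2 := cast_heq _ _
        have h2 : HEq (cast (congrArg T hk') (e k').2) (e k').2 := cast_heq _ _
        exact h1.symm.trans ((heq_of_eq hkk).trans h2))
    refine hc.mono (hmul _ ?_)
    refine Cardinal.mk_range_le.trans ?_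
    rw [Cardinal.mk_uLift, Cardinal.mk_nat, Cardinal.lift_aleph0]
    exact hμ

/-- almost disjoint functions are few -/
lemma guess_count (H : Dense Small R) (hns : ¬ Small Set.univ) {K : Type u} {μ : Cardinal.{u}}
    (hg : Guess Small K μ) (Φ : Set (Y → K))
    (hΦ : ∀ φ ∈ Φ, ∀ ψ ∈ Φ, φ ≠ ψ → Small {y | φ y = ψ y}) : #Φ ≤ μ * #R := by
  classical
  obtain ⟨J, d, hJ, hd⟩ := hg
  have h1 : ∀ φ : Φ, ∃ q : J × R, ¬ Small q.2.1 ∧ ∀ y ∈ q.2.1, φ.1 y = d q.1 y := by
    intro φ
    obtain ⟨j, B, -, hB, hj⟩ := hd φ.1 Set.univ hns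
    obtain ⟨C, hCR, hCB, hC⟩ := H.dense B hB
    exact ⟨(j, ⟨C, hCR⟩), hC, fun y hy => hj y (hCB hy)⟩
  choose q hq1 hq2 using h1
  have hinj : Function.Injective q := by
    intro φ ψ h
    by_contra hne
    have hne' : φ.1 ≠ ψ.1 := fun h => hne (Subtype.ext h)
    apply hq1 φ
    refine H.mono _ _ ?_ (hΦ φ.1 φ.2 ψ.1 ψ.2 hne')
    intro y hy
    have h2 := hq2 φ y hy
    have h3 := hq2 ψ y (by rw [← h]; exact hy)
    show φ.1 y = ψ.1 y
    rw [h2, h3, h]
  refine (Cardinal.mk_le_of_injective hinj).trans ?_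
  rw [Cardinal.mk_prod, Cardinal.lift_id, Cardinal.lift_id]
  exact mul_le_mul' hJ le_rfl

/-- if functions into the reals can be guessed by `μ` functions then `Y` has at most `μ` subsets -/
lemma guess_sets (H : Dense Small R) (hns : ¬ Small Set.univ) (hY : #Y = ℵ₁) {μ : Cardinal.{u}}
    (hμ : ℵ₀ ≤ μ) (hR : #R ≤ μ) (hg : Guess Small (ULift.{u} (Set ℕ)) μ) :
    2 ^ (ℵ₁ : Cardinal.{u}) ≤ μ := by
  classical
  obtain ⟨r, wo, hr⟩ := exists_order Y hY
  have henc : ∀ z : Y, ∃ g : Y → ℕ, Set.InjOn g {w | r w z} := fun z =>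
    Set.countable_iff_exists_injOn.1 (hr z)
  choose enc henc using henc
  let φ : Set Y → Y → ULift.{u} (Set ℕ) := fun Z y => ⟨enc y '' (Z ∩ {w | r w y})⟩
  have hagree : ∀ Z Z' : Set Y, Z ≠ Z' → {y | φ Z y = φ Z' y}.Countable := by
    intro Z Z' hne
    obtain ⟨x, hx⟩ : ∃ x, ¬ (x ∈ Z ↔ x ∈ Z') := by
      by_contra hc
      push Not at hc
      exact hne (Set.ext hc)
    refine ((hr x).union (Set.countable_singleton x)).mono ?_
    intro y hy
    have hy' : enc y '' (Z ∩ {w | r w y}) = enc y '' (Z' ∩ {w | r w y}) :=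
      congrArg ULift.down hy
    rcases trichotomous_of r x y with h3 | h3 | h3
    · exfalso
      apply hx
      have key : ∀ W W' : Set Y, enc y '' (W ∩ {w | r w y}) = enc y '' (W' ∩ {w | r w y}) →
          x ∈ W → x ∈ W' := by
        intro W W' hWW hxW
        have h4 : enc y x ∈ enc y '' (W' ∩ {w | r w y}) := by
          rw [← hWW]
          exact ⟨x, ⟨hxW, h3⟩, rfl⟩
        obtain ⟨x', ⟨hx'W, hx'y⟩, hxx⟩ := h4
        have := henc y hx'y h3 hxx
        rw [← this]
        exact hx'W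
      exact ⟨key Z Z' hy', key Z' Z hy'.symm⟩
    · exact Or.inr h3.symm
    · exact Or.inl h3
  have hunc : ¬ (Set.univ : Set Y).Countable := fun h => hns (H.countable _ h)
  have hinj : Function.Injective φ := by
    intro Z Z' h
    by_contra hne
    apply hunc
    refine (hagree Z Z' hne).mono ?_
    intro y _
    show φ Z y = φ Z' y
    rw [h]
  have h1 := guess_count H hns hg (Set.range φ) (by
    rintro _ ⟨Z, rfl⟩ _ ⟨Z', rfl⟩ hne
    exact H.countable _ (hagree Z Z' (fun h => hne (by rw [h]))))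
  rw [Cardinal.mk_range_eq φ hinj, Cardinal.mk_set, hY] at h1
  exact h1.trans ((mul_le_mul' le_rfl hR).trans (Cardinal.mul_eq_self hμ).le)

end Pool.Agent.Helper797F
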