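import Mathlib

/-!
Guessing functions modulo a sigma-ideal on a set of size `ℵ₁` whose positive sets have a dense
subfamily `R`.  Used for MP_8f36f1_lc.
-/

namespace Pool.Agent.Helper797F

open Cardinal Set

universe u

/-- a well-ordering of a set of size `ℵ₁` all of whose initial segments are countable -/
lemma exists_order (Y : Type u) (hY : #Y = ℵ₁) :
    ∃ r : Y → Y → Prop, IsWellOrder Y r ∧ ∀ y, {y' | r y' y}.Countable := by
  obtain ⟨r, wo, h⟩ := Cardinal.exists_ord_eq Y
  refine ⟨r, wo, fun y => ?_⟩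
  have h1 : (Ordinal.typein r y).card < #Y := Cardinal.card_typein_lt y h
  have h2 : (Ordinal.typein r y).card = #{y' // r y' y} := by
    rw [Ordinal.card_typein]
  rw [h2, hY, ← Cardinal.succ_aleph0, Order.lt_succ_iff] at h1
  exact Set.countable_coe_iff.1 (Cardinal.mk_le_aleph0_iff.1 h1)

section coloring

variable {Y : Type u}

lemma cls_countable (Adj : Y → Y → Prop) (hA : ∀ y, {y' | Adj y y'}.Countable) (y : Y) :
    {y' | Relation.ReflTransGen Adj y y'}.Countable := by
  let N : ℕ → Set Y := fun n => Nat.rec {y} (fun _ S => ⋃ z ∈ S, {y' | Adj z y'}) n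
  have hN : ∀ n, (N n).Countable := by
    intro n
    induction n with
    | zero => exact Set.countable_singleton y
    | succ n ih => exact ih.biUnion (fun z _ => hA z)
  refine (Set.countable_iUnion hN).mono ?_
  intro z hz
  have : ∃ n, z ∈ N n := by
    induction hz with
    | refl => exact ⟨0, rfl⟩
    | tail _ hbc ih =>
      obtain ⟨n, hn⟩ := ih
      exact ⟨n + 1, Set.mem_biUnion hn hbc⟩
  exact mem_iUnion.2 this

lemma exists_coloring (r : Y → Y → Prop) (wo : IsWellOrder Y r)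
    (hr : ∀ y, {y' | r y' y}.Countable) (h : Y → Y) :
    ∃ c : Y → ℕ, ∀ y y', r y y' → ¬ r (h y) y' → c y ≠ c y' := by
  classical
  let Adj : Y → Y → Prop := fun y y' => (r y y' ∧ ¬ r (h y) y') ∨ (r y' y ∧ ¬ r (h y') y)
  have hsymm : ∀ y y', Adj y y' → Adj y' y := by
    intro y y' hy
    rcases hy with hy | hy
    · exact Or.inr hy
    · exact Or.inl hy
  have hA : ∀ y, {y' | Adj y y'}.Countable := by
    intro y
    have h1 : ({y' | r y' (h y)} ∪ {h y} ∪ {y' | r y' y}).Countable :=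
      ((hr (h y)).union (Set.countable_singleton _)).union (hr y)
    refine h1.mono ?_
    rintro y' (⟨-, h2⟩ | ⟨h2, -⟩)
    · left
      rcases trichotomous_of r (h y) y' with h3 | h3 | h3
      · exact absurd h3 h2
      · exact Or.inr h3.symm
      · exact Or.inl h3
    · exact Or.inr h2
  have hcls := cls_countable Adj hA
  have henc : ∀ S : Set Y, ∃ g : Y → ℕ, S.Countable → Set.InjOn g S := by
    intro S
    by_cases hS : S.Countable
    · obtain ⟨g, hg⟩ := Set.countable_iff_exists_injOn.1 hS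
      exact ⟨g, fun _ => hg⟩
    · exact ⟨fun _ => 0, fun h => absurd h hS⟩
  choose g hg using henc
  have heq : ∀ y y', Adj y y' →
      {z | Relation.ReflTransGen Adj y z} = {z | Relation.ReflTransGen Adj y' z} := by
    intro y y' hy
    ext z
    exact ⟨fun hz => Relation.ReflTransGen.head (hsymm y y' hy) hz,
      fun hz => Relation.ReflTransGen.head hy hz⟩
  refine ⟨fun y => g {z | Relation.ReflTransGen Adj y z} y, ?_⟩
  intro y y' hyy' hh hc
  have hadj : Adj y y' := Or.inl ⟨hyy', hh⟩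
  have h1 := heq y y' hadj
  simp only at hc
  rw [← h1] at hc
  have h2 := hg _ (hcls y) (show y ∈ {z | Relation.ReflTransGen Adj y z} from
    Relation.ReflTransGen.refl) (show y' ∈ {z | Relation.ReflTransGen Adj y z} from
    Relation.ReflTransGen.single hadj) hc
  subst h2
  exact (irrefl_of r y) hyy'

end coloring

/-- `Small` is a sigma-ideal containing the countable sets, and every set which is not small
contains a member of `R` which is not small. -/
structure Dense {Y : Type u} (Small : Set Y → Prop) (R : Set (Set Y)) : Prop where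
  mono : ∀ A B : Set Y, A ⊆ B → Small B → Small A
  iUnion : ∀ A : ℕ → Set Y, (∀ n, Small (A n)) → Small (⋃ n, A n)
  countable : ∀ A : Set Y, A.Countable → Small A
  dense : ∀ A : Set Y, ¬ Small A → ∃ C ∈ R, C ⊆ A ∧ ¬ Small C

section guess

variable {Y : Type u} {Small : Set Y → Prop} {R : Set (Set Y)}

lemma Dense.piece (H : Dense Small R) {ι : Type*} [Countable ι] (A : Set Y) (hA : ¬ Small A)
    (p : ι → Set Y) (hp : ∀ y ∈ A, ∃ i, y ∈ p i) : ∃ i, ¬ Small {y | y ∈ A ∧ y ∈ p i} := by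
  classical
  by_contra hcon
  push Not at hcon
  apply hA
  by_cases hne : Nonempty ι
  · obtain ⟨s, hs⟩ := exists_surjective_nat ι
    refine H.mono _ _ ?_ (H.iUnion (fun n => {y | y ∈ A ∧ y ∈ p (s n)}) (fun n => hcon (s n)))
    intro y hy
    obtain ⟨i, hi⟩ := hp y hy
    obtain ⟨n, rfl⟩ := hs i
    exact mem_iUnion.2 ⟨n, hy, hi⟩
  · refine H.mono _ ∅ ?_ (H.countable _ Set.countable_empty)
    intro y hy
    obtain ⟨i, _⟩ := hp y hy
    exact absurd ⟨i⟩ hne

/-- few functions `d j` guess every function `Y → K` on a non-small subset of any given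
non-small set -/
def Guess (Small : Set Y → Prop) (K : Type u) (κ : Cardinal.{u}) : Prop :=
  ∃ (J : Type u) (d : J → Y → K), #J ≤ κ ∧ ∀ (h : Y → K) (A : Set Y), ¬ Small A →
    ∃ j, ∃ B ⊆ A, ¬ Small B ∧ ∀ y ∈ B, h y = d j y

lemma Guess.mono {K : Type u} {κ κ' : Cardinal.{u}} (h : Guess Small K κ) (hκ : κ ≤ κ') :
    Guess Small K κ' := by
  obtain ⟨J, d, h1, h2⟩ := h
  exact ⟨J, d, h1.trans hκ, h2⟩

lemma Guess.of_injective (H : Dense Small R) {K K' : Type u} {κ : Cardinal.{u}} (e : K → K')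
    (he : Function.Injective e) (h : Guess Small K' κ) : Guess Small K κ := by
  classical
  by_cases hne : Nonempty K
  · obtain ⟨J, d, h1, h2⟩ := h
    refine ⟨J, fun j y => Function.invFun e (d j y), h1, ?_⟩
    intro h A hA
    obtain ⟨j, B, hB, hBs, hj⟩ := h2 (fun y => e (h y)) A hA
    refine ⟨j, B, hB, hBs, fun y hy => ?_⟩
    simp only
    rw [← hj y hy]
    exact (Function.leftInverse_invFun he (h y)).symm
  · refine ⟨PEmpty, fun j => j.elim, by simp, ?_⟩
    intro h A hA
    exfalso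
    apply hA
    refine H.mono _ ∅ ?_ (H.countable _ Set.countable_empty)
    intro y _
    exact absurd ⟨h y⟩ hne

lemma guess_countable (H : Dense Small R) (K : Type u) [Countable K] : Guess Small K ℵ₀ := by
  refine ⟨K, fun k _ => k, Cardinal.mk_le_aleph0, ?_⟩
  intro h A hA
  obtain ⟨k, hk⟩ := H.piece A hA (fun k => {y | h y = k}) (fun y _ => ⟨h y, rfl⟩)
  exact ⟨k, _, fun y hy => hy.1, hk, fun y hy => hy.2⟩

/-- the case `K = Y` -/
lemma guess_self (H : Dense Small R) (hY : #Y = ℵ₁) : Guess Small Y (#R * ℵ₀) := by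
  classical
  obtain ⟨r, wo, hr⟩ := exists_order Y hY
  have henc : ∀ z : Y, ∃ g : Y → ℕ, Set.InjOn g {w | r w z} := fun z =>
    Set.countable_iff_exists_injOn.1 (hr z)
  choose enc henc using henc
  let next : Set Y → Y → Y := fun C y =>
    if h : ∃ z, z ∈ C ∧ r y z then wo.toIsWellFounded.wf.min {z | z ∈ C ∧ r y z} h else y
  have hnext : ∀ (C : Set Y) (y : Y), (∃ z, z ∈ C ∧ r y z) → next C y ∈ C ∧ r y (next C y) := by
    intro C y h
    simp only [next, h, dif_pos]
    exact wo.toIsWellFounded.wf.min_mem {z | z ∈ C ∧ r y z} h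
  let dec : R × ULift.{u} ℕ → Y → Y := fun q y =>
    if h : ∃ w, r w (next q.1.1 y) ∧ enc (next q.1.1 y) w = q.2.down then h.choose else y
  refine ⟨R × ULift.{u} ℕ, dec, ?_, ?_⟩
  · rw [Cardinal.mk_prod]
    simp
  · intro h A hA
    obtain ⟨c, hc⟩ := exists_coloring r wo hr h
    obtain ⟨k, hk⟩ := H.piece A hA (fun k : ℕ => {y | c y = k}) (fun y _ => ⟨c y, rfl⟩)
    obtain ⟨C, hCR, hCA, hCs⟩ := H.dense _ hk
    have hex : ∀ y ∈ C, ∃ z, z ∈ C ∧ r y z := by
      intro y hy
      by_contra hcon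
      push Not at hcon
      apply hCs
      apply H.countable
      refine ((hr y).union (Set.countable_singleton y)).mono ?_
      intro z hz
      rcases trichotomous_of r y z with h3 | h3 | h3
      · exact absurd h3 (hcon z hz)
      · exact Or.inr h3.symm
      · exact Or.inl h3
    have hlt : ∀ y ∈ C, r (h y) (next C y) := by
      intro y hy
      obtain ⟨h1, h2⟩ := hnext C y (hex y hy)
      by_contra hcon
      have h3 := hc y (next C y) h2 hcon
      exact h3 ((hCA hy).2.trans (hCA h1).2.symm)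
    obtain ⟨n, hn⟩ := H.piece C hCs (fun n : ℕ => {y | enc (next C y) (h y) = n})
      (fun y _ => ⟨_, rfl⟩)
    refine ⟨(⟨C, hCR⟩, ⟨n⟩), _, fun y hy => (hCA hy.1).1, hn, ?_⟩
    rintro y ⟨hyC, hyn⟩
    have hw : ∃ w, r w (next C y) ∧ enc (next C y) w = n := ⟨h y, hlt y hyC, hyn⟩
    have h1 : dec (⟨C, hCR⟩, ⟨n⟩) y = hw.choose := by
      simp only [dec]
      rw [dif_pos hw]
    rw [h1]
    exact henc (next C y) (hlt y hyC) hw.choose_spec.1 (hyn.trans hw.choose_spec.2.symm)

lemma guess_aleph_one (H : Dense Small R) (hY : #Y = ℵ₁) (K : Type u) (hK : #K ≤ ℵ₁) :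
    Guess Small K (#R * ℵ₀) := by
  rw [← hY] at hK
  obtain ⟨e⟩ := hK
  exact Guess.of_injective H e e.injective (guess_self H hY)

/-- the covering step -/
lemma guess_cover (H : Dense Small R) {K : Type u} {κ : Cardinal.{u}} (𝒜 : Set (Set K))
    (hcov : ∀ h : Y → K, ∃ s : ℕ → Set K, (∀ n, s n ∈ 𝒜) ∧ ∀ y, ∃ n, h y ∈ s n)
    (hg : ∀ a ∈ 𝒜, Guess Small a κ) : Guess Small K (#𝒜 * κ) := by
  classical
  have hg' : ∀ a : 𝒜, Guess Small a.1 κ := fun a => hg a.1 a.2
  choose J d hJ hd using hg'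
  refine ⟨Σ a : 𝒜, J a, fun q y => (d q.1 q.2 y).1, ?_, ?_⟩
  · rw [Cardinal.mk_sigma]
    refine (Cardinal.sum_le_sum _ (fun _ => κ) hJ).trans ?_
    rw [Cardinal.sum_const, Cardinal.lift_id, Cardinal.lift_id]
  · intro h A hA
    obtain ⟨s, hs, hsy⟩ := hcov h
    obtain ⟨n, hn⟩ := H.piece A hA (fun n : ℕ => {y | h y ∈ s n}) (fun y _ => hsy y)
    have hne : ∃ y, h y ∈ s n := by
      by_contra hcon
      push Not at hcon
      apply hn
      refine H.mono _ ∅ ?_ (H.countable _ Set.countable_empty)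
      rintro y ⟨-, hy⟩
      exact absurd hy (hcon y)
    obtain ⟨y₀, hy₀⟩ := hne
    let h' : Y → s n := fun y => if hy : h y ∈ s n then ⟨h y, hy⟩ else ⟨h y₀, hy₀⟩
    obtain ⟨j, B, hB, hBs, hj⟩ := hd ⟨s n, hs n⟩ h' _ hn
    refine ⟨⟨⟨s n, hs n⟩, j⟩, B, fun y hy => (hB hy).1, hBs, ?_⟩
    intro y hy
    have h1 := hj y hy
    have hyn : h y ∈ s n := (hB hy).2
    have h2 : h' y = ⟨h y, hyn⟩ := by
      simp only [h']
      rw [dif_pos hyn]
    rw [h2] at h1
    exact congrArg Subtype.val h1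

end guess

end Pool.Agent.Helper797F
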